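import Mathlib

/-!
Bigraphs, homomorphism densities, the weakly norming property and cut-involutions.
A bigraph is given by finite types `V₁`, `V₂` and an edge set `E : Finset (V₁ × V₂)`.
-/

set_option autoImplicit false

open MeasureTheory

namespace Pool.Agent.H169Z.WN

section density

variable {V₁ V₂ : Type} [Fintype V₁] [Fintype V₂]
  {X Y : Type} [MeasurableSpace X] [MeasurableSpace Y]

/-- `t(G, W)`: the integral over `X^{V₁} × Y^{V₂}` of the product of `W (x_v, y_w)` over the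
edges `(v, w)`. -/
noncomputable def homDensity (E : Finset (V₁ × V₂)) (μ : Measure X) (ν : Measure Y)
    (W : X × Y → ℝ) : ℝ :=
  ∫ p : (V₁ → X) × (V₂ → Y), ∏ e ∈ E, W (p.1 e.1, p.2 e.2)
    ∂((Measure.pi fun _ : V₁ => μ).prod (Measure.pi fun _ : V₂ => ν))

/-- the functional `W ↦ t(G, |W|)^(1 / e(G))` -/
noncomputable def weakNorm (E : Finset (V₁ × V₂)) (μ : Measure X) (ν : Measure Y)
    (W : X × Y → ℝ) : ℝ :=
  homDensity E μ ν (fun z => |W z|) ^ ((1 : ℝ) / (E.card : ℝ))

/-- bounded measurable functions -/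
def BddMeas (W : X × Y → ℝ) : Prop := Measurable W ∧ ∃ C : ℝ, ∀ z, |W z| ≤ C

/-- `W ↦ t(G, |W|)^(1 / e(G))` is a norm on the bounded measurable functions on `X × Y` modulo
almost everywhere equality: subadditive, absolutely homogeneous, and zero only for functions
that vanish almost everywhere. -/
def WeaklyNormingOn (E : Finset (V₁ × V₂)) (μ : Measure X) (ν : Measure Y) : Prop :=
  (∀ W W' : X × Y → ℝ, BddMeas W → BddMeas W' →
    weakNorm E μ ν (W + W') ≤ weakNorm E μ ν W + weakNorm E μ ν W') ∧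
  (∀ (c : ℝ) (W : X × Y → ℝ), BddMeas W → weakNorm E μ ν (c • W) = |c| * weakNorm E μ ν W) ∧
  (∀ W : X × Y → ℝ, BddMeas W → weakNorm E μ ν W = 0 → W =ᵐ[μ.prod ν] 0)

end density

section symmetry

variable {V₁ V₂ : Type}

/-- the underlying simple graph on `V₁ ⊕ V₂` -/
def graph (E : Finset (V₁ × V₂)) : SimpleGraph (V₁ ⊕ V₂) :=
  SimpleGraph.fromRel fun a b => ∃ e ∈ E, a = Sum.inl e.1 ∧ b = Sum.inr e.2

/-- a pair of permutations of the two sides that preserves the edges in both directions -/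
def IsAut (E : Finset (V₁ × V₂)) (φ : Equiv.Perm V₁ × Equiv.Perm V₂) : Prop :=
  ∀ v w, (φ.1 v, φ.2 w) ∈ E ↔ (v, w) ∈ E

/-- an automorphism equal to its inverse such that the graph left after deleting its fixed
vertices has two vertices that are not joined by a walk -/
def IsCutInvolution (E : Finset (V₁ × V₂)) (φ : Equiv.Perm V₁ × Equiv.Perm V₂) : Prop :=
  IsAut E φ ∧ φ = φ⁻¹ ∧
    ¬ ((graph E).induce {a : V₁ ⊕ V₂ | Sum.map φ.1 φ.2 a ≠ a}).Preconnected

/-- the group generated by the cut-involutions -/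
def cutGroup (E : Finset (V₁ × V₂)) : Subgroup (Equiv.Perm V₁ × Equiv.Perm V₂) :=
  Subgroup.closure {φ | IsCutInvolution E φ}

/-- `Γ` acts transitively on the edges -/
def EdgeTransitive (E : Finset (V₁ × V₂)) (Γ : Subgroup (Equiv.Perm V₁ × Equiv.Perm V₂)) : Prop :=
  ∀ e ∈ E, ∀ e' ∈ E, ∃ φ ∈ Γ, (φ.1 e.1, φ.2 e.2) = e'

end symmetry

end Pool.Agent.H169Z.WN
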