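import Pool.Agent.H169Z.WN.Sym

set_option autoImplicit false

open MeasureTheory Finset

namespace Pool.Agent.H169Z.WN

theorem homDensity_step {V₁ V₂ : Type} [Fintype V₁] [Fintype V₂] [DecidableEq V₁] [DecidableEq V₂]
    {X Y : Type} [MeasurableSpace X] [MeasurableSpace Y] (E : Finset (V₁ × V₂))
    (μ : Measure X) (ν : Measure Y) [IsProbabilityMeasure μ] [IsProbabilityMeasure ν]
    {a b : ℕ} (f : X → Fin a) (g : Y → Fin b) (hf : Measurable f) (hg : Measurable g)
    (c d : ℝ) (hc : ∀ i, μ.real (f ⁻¹' {i}) = c) (hd : ∀ j, ν.real (g ⁻¹' {j}) = d)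
    (A : Fin a → Fin b → ℝ) :
    homDensity E μ ν (fun z => A (f z.1) (g z.2)) =
      c ^ Fintype.card V₁ * d ^ Fintype.card V₂ *
        ∑ x : V₁ → Fin a, ∑ y : V₂ → Fin b, ∏ e ∈ E, A (x e.1) (y e.2) := by
  have pf : MeasurePreserving f μ (μ.map f) := ⟨hf, rfl⟩
  have pg : MeasurePreserving g ν (ν.map g) := ⟨hg, rfl⟩
  have := Measure.isProbabilityMeasure_map (μ := μ) hf.aemeasurable
  have := Measure.isProbabilityMeasure_map (μ := ν) hg.aemeasurable
  have p1 := measurePreserving_pi (fun _ : V₁ => μ) (fun _ : V₁ => μ.map f) (fun _ => pf)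
  have p2 := measurePreserving_pi (fun _ : V₂ => ν) (fun _ : V₂ => ν.map g) (fun _ => pg)
  have p := p1.prod p2
  let F : (V₁ → Fin a) × (V₂ → Fin b) → ℝ := fun p => ∏ e ∈ E, A (p.1 e.1) (p.2 e.2)
  have e1 : homDensity E μ ν (fun z => A (f z.1) (g z.2)) =
      ∫ q, F q ∂((Measure.pi fun _ : V₁ => μ.map f).prod (Measure.pi fun _ : V₂ => ν.map g)) := by
    rw [← p.map_eq, integral_map p.measurable.aemeasurable
      (measurable_of_finite F).aestronglyMeasurable]
    rfl
  rw [e1, integral_fintype (Integrable.of_finite), Fintype.sum_prod_type, mul_sum]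
  apply sum_congr rfl
  intro x _
  rw [mul_sum]
  apply sum_congr rfl
  intro y _
  rw [smul_eq_mul]
  congr 1
  rw [← Set.singleton_prod_singleton, Measure.real, Measure.prod_prod, Measure.pi_singleton,
    Measure.pi_singleton, ENNReal.toReal_mul, ENNReal.toReal_prod, ENNReal.toReal_prod]
  have h1 : ∀ i, ((μ.map f) {i}).toReal = c := by
    intro i
    rw [Measure.map_apply hf (measurableSet_singleton _)]; exact hc i
  have h2 : ∀ j, ((ν.map g) {j}).toReal = d := by
    intro j
    rw [Measure.map_apply hg (measurableSet_singleton _)]; exact hd j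
  simp only [h1, h2, prod_const, card_univ]

/-- the three-point codegree -/
def tri (A : Fin 3 → Fin 4 → ℕ) (i j k : Fin 3) : ℕ := ∑ y, A i y * A j y * A k y

/-- the weighted homomorphism count of the doubled Fano plane -/
def cnt (A : Fin 3 → Fin 4 → ℕ) : ℕ :=
  ∑ x0, ∑ x1, ∑ x2, ∑ x3, ∑ x4, ∑ x5, ∑ x6,
    (tri A x0 x1 x3 * tri A x1 x2 x4 * tri A x2 x3 x5 * tri A x3 x4 x6 * tri A x4 x5 x0 *
      tri A x5 x6 x1 * tri A x6 x0 x2) ^ 2

theorem sum_succ_pi {α : Type} [Fintype α] {n : ℕ} (F : (Fin (n + 1) → α) → ℕ) :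
    ∑ x, F x = ∑ a, ∑ x : Fin n → α, F (Fin.cons a x) := by
  rw [← (Fin.consEquiv (fun _ => α)).sum_comp, Fintype.sum_prod_type]
  rfl

theorem inner_eq (A : Fin 3 → Fin 4 → ℕ) (x : Fin 7 → Fin 3) :
    ∑ y : Fin 14 → Fin 4, ∏ e ∈ fano, A (x e.1) (y e.2) =
      (tri A (x 0) (x 1) (x 3) * tri A (x 1) (x 2) (x 4) * tri A (x 2) (x 3) (x 5) *
        tri A (x 3) (x 4) (x 6) * tri A (x 4) (x 5) (x 0) * tri A (x 5) (x 6) (x 1) *
        tri A (x 6) (x 0) (x 2)) ^ 2 := by
  have h1 : ∀ (w : Fin 14) (F : Fin 7 → ℕ), ∏ v, (if inc v w = true then F v else 1) =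
      F (pts w).1 * F (pts w).2.1 * F (pts w).2.2 := by
    intro w F
    rw [← prod_filter]
    have h2 : ∀ w : Fin 14, univ.filter (fun v => inc v w = true) =
        {(pts w).1, (pts w).2.1, (pts w).2.2} ∧ (pts w).1 ≠ (pts w).2.1 ∧
        (pts w).1 ≠ (pts w).2.2 ∧ (pts w).2.1 ≠ (pts w).2.2 := by decide +kernel
    obtain ⟨e, n1, n2, n3⟩ := h2 w
    rw [e, prod_insert (by simp [n1, n2]), prod_pair n3, mul_assoc]
  have h2 : ∀ y : Fin 14 → Fin 4, ∏ e ∈ fano, A (x e.1) (y e.2) =
      ∏ w, (A (x (pts w).1) (y w) * A (x (pts w).2.1) (y w) * A (x (pts w).2.2) (y w)) := by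
    intro y
    rw [fano, prod_filter, Fintype.prod_prod_type_right]
    apply prod_congr rfl
    intro w _
    exact h1 w (fun v => A (x v) (y w))
  simp only [h2]
  rw [← Fintype.piFinset_univ, ← prod_univ_sum (fun _ : Fin 14 => (univ : Finset (Fin 4)))
    (fun w y => A (x (pts w).1) y * A (x (pts w).2.1) y * A (x (pts w).2.2) y)]
  have h3 : ∀ w, ∑ y, A (x (pts w).1) y * A (x (pts w).2.1) y * A (x (pts w).2.2) y =
      tri A (x (pts w).1) (x (pts w).2.1) (x (pts w).2.2) := fun _ => rfl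
  simp only [h3, Fin.prod_univ_succ, Fin.prod_univ_zero]
  show tri A (x 0) (x 1) (x 3) * (tri A (x 1) (x 2) (x 4) * (tri A (x 2) (x 3) (x 5) *
    (tri A (x 3) (x 4) (x 6) * (tri A (x 4) (x 5) (x 0) * (tri A (x 5) (x 6) (x 1) *
    (tri A (x 6) (x 0) (x 2) * (tri A (x 0) (x 1) (x 3) * (tri A (x 1) (x 2) (x 4) *
    (tri A (x 2) (x 3) (x 5) * (tri A (x 3) (x 4) (x 6) * (tri A (x 4) (x 5) (x 0) *
    (tri A (x 5) (x 6) (x 1) * (tri A (x 6) (x 0) (x 2) * 1))))))))))))) = _
  ring

theorem sum_eq_cnt (A : Fin 3 → Fin 4 → ℕ) :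
    ∑ x : Fin 7 → Fin 3, ∑ y : Fin 14 → Fin 4, ∏ e ∈ fano, A (x e.1) (y e.2) = cnt A := by
  simp only [inner_eq]
  simp only [sum_succ_pi, Fintype.sum_unique]
  rfl

def A1 : Fin 3 → Fin 4 → ℕ :=
  ![![1000000000, 0, 0, 100050000], ![2000000000, 1000000000, 2000000000, 0],
    ![2000000000, 4000000000, 0, 2]]
def A2 : Fin 3 → Fin 4 → ℕ :=
  ![![1000000000, 0, 0, 99950000], ![2000000000, 1000000000, 2000000000, 200],
    ![2000000000, 4000000000, 0, 0]]

theorem cnt_lt : 2 ^ 41 * (cnt A1 + cnt A2) < cnt (fun i j => A1 i j + A2 i j) := by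
  decide +kernel

open unitInterval in
/-- three equal parts of the unit interval -/
noncomputable def st3 (x : I) : Fin 3 :=
  if x < ⟨1 / 3, by norm_num, by norm_num⟩ then 0
  else if x < ⟨2 / 3, by norm_num, by norm_num⟩ then 1 else 2

open unitInterval in
/-- four equal parts of the unit interval -/
noncomputable def st4 (x : I) : Fin 4 :=
  if x < ⟨1 / 4, by norm_num, by norm_num⟩ then 0
  else if x < ⟨2 / 4, by norm_num, by norm_num⟩ then 1
  else if x < ⟨3 / 4, by norm_num, by norm_num⟩ then 2 else 3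

theorem meas3 : Measurable st3 :=
  Measurable.ite measurableSet_Iio measurable_const
    (Measurable.ite measurableSet_Iio measurable_const measurable_const)

theorem meas4 : Measurable st4 :=
  Measurable.ite measurableSet_Iio measurable_const
    (Measurable.ite measurableSet_Iio measurable_const
      (Measurable.ite measurableSet_Iio measurable_const measurable_const))

open unitInterval in
theorem vol3 (i : Fin 3) : (volume : Measure I).real (st3 ⁻¹' {i}) = 1 / 3 := by
  have k0 : st3 ⁻¹' {0} = Set.Iio ⟨1 / 3, by norm_num, by norm_num⟩ := by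
    ext x
    simp only [st3, Set.mem_preimage, Set.mem_singleton_iff, Set.mem_Iio, ← Subtype.coe_lt_coe]
    split_ifs with h1 h2
    · simp only [true_iff]; exact h1
    · simp only [Fin.isValue, Fin.reduceEq, false_iff]; exact h1
    · simp only [Fin.isValue, Fin.reduceEq, false_iff]; exact h1
  have k1 : st3 ⁻¹' {1} = Set.Ico ⟨1 / 3, by norm_num, by norm_num⟩
      ⟨2 / 3, by norm_num, by norm_num⟩ := by
    ext x
    simp only [st3, Set.mem_preimage, Set.mem_singleton_iff, Set.mem_Ico, ← Subtype.coe_lt_coe,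
      ← Subtype.coe_le_coe]
    split_ifs with h1 h2
    · simp only [Fin.isValue, Fin.reduceEq, false_iff, not_and, not_lt]; intro; linarith
    · simp only [true_iff]; exact ⟨by linarith, h2⟩
    · simp only [Fin.isValue, Fin.reduceEq, false_iff, not_and, not_lt]; intro; linarith
  have k2 : st3 ⁻¹' {2} = Set.Ici ⟨2 / 3, by norm_num, by norm_num⟩ := by
    ext x
    simp only [st3, Set.mem_preimage, Set.mem_singleton_iff, Set.mem_Ici, ← Subtype.coe_lt_coe,
      ← Subtype.coe_le_coe]
    split_ifs with h1 h2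
    · simp only [Fin.isValue, Fin.reduceEq, false_iff, not_le]; linarith
    · simp only [Fin.isValue, Fin.reduceEq, false_iff, not_le]; linarith
    · simp only [true_iff]; linarith
  fin_cases i
  · show (volume : Measure I).real (st3 ⁻¹' {0}) = _
    rw [k0, Measure.real, volume_Iio, ENNReal.toReal_ofReal (by norm_num)]
  · show (volume : Measure I).real (st3 ⁻¹' {1}) = _
    rw [k1, Measure.real, volume_Ico, ENNReal.toReal_ofReal (by norm_num)]; norm_num
  · show (volume : Measure I).real (st3 ⁻¹' {2}) = _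
    rw [k2, Measure.real, volume_Ici, ENNReal.toReal_ofReal (by norm_num)]; norm_num

open unitInterval in
theorem vol4 (i : Fin 4) : (volume : Measure I).real (st4 ⁻¹' {i}) = 1 / 4 := by
  have k0 : st4 ⁻¹' {0} = Set.Iio ⟨1 / 4, by norm_num, by norm_num⟩ := by
    ext x
    simp only [st4, Set.mem_preimage, Set.mem_singleton_iff, Set.mem_Iio, ← Subtype.coe_lt_coe]
    split_ifs with h1 h2 h3
    · simp only [true_iff]; exact h1
    · simp only [Fin.isValue, Fin.reduceEq, false_iff]; exact h1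
    · simp only [Fin.isValue, Fin.reduceEq, false_iff]; exact h1
    · simp only [Fin.isValue, Fin.reduceEq, false_iff]; exact h1
  have k1 : st4 ⁻¹' {1} = Set.Ico ⟨1 / 4, by norm_num, by norm_num⟩
      ⟨2 / 4, by norm_num, by norm_num⟩ := by
    ext x
    simp only [st4, Set.mem_preimage, Set.mem_singleton_iff, Set.mem_Ico, ← Subtype.coe_lt_coe,
      ← Subtype.coe_le_coe]
    split_ifs with h1 h2 h3
    · simp only [Fin.isValue, Fin.reduceEq, false_iff, not_and, not_lt]; intro; linarith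
    · simp only [true_iff]; exact ⟨by linarith, h2⟩
    · simp only [Fin.isValue, Fin.reduceEq, false_iff, not_and, not_lt]; intro; linarith
    · simp only [Fin.isValue, Fin.reduceEq, false_iff, not_and, not_lt]; intro; linarith
  have k2 : st4 ⁻¹' {2} = Set.Ico ⟨2 / 4, by norm_num, by norm_num⟩
      ⟨3 / 4, by norm_num, by norm_num⟩ := by
    ext x
    simp only [st4, Set.mem_preimage, Set.mem_singleton_iff, Set.mem_Ico, ← Subtype.coe_lt_coe,
      ← Subtype.coe_le_coe]
    split_ifs with h1 h2 h3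
    · simp only [Fin.isValue, Fin.reduceEq, false_iff, not_and, not_lt]; intro; linarith
    · simp only [Fin.isValue, Fin.reduceEq, false_iff, not_and, not_lt]; intro; linarith
    · simp only [true_iff]; exact ⟨by linarith, h3⟩
    · simp only [Fin.isValue, Fin.reduceEq, false_iff, not_and, not_lt]; intro; linarith
  have k3 : st4 ⁻¹' {3} = Set.Ici ⟨3 / 4, by norm_num, by norm_num⟩ := by
    ext x
    simp only [st4, Set.mem_preimage, Set.mem_singleton_iff, Set.mem_Ici, ← Subtype.coe_lt_coe,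
      ← Subtype.coe_le_coe]
    split_ifs with h1 h2 h3
    · simp only [Fin.isValue, Fin.reduceEq, false_iff, not_le]; linarith
    · simp only [Fin.isValue, Fin.reduceEq, false_iff, not_le]; linarith
    · simp only [Fin.isValue, Fin.reduceEq, false_iff, not_le]; linarith
    · simp only [true_iff]; linarith
  fin_cases i
  · show (volume : Measure I).real (st4 ⁻¹' {0}) = _
    rw [k0, Measure.real, volume_Iio, ENNReal.toReal_ofReal (by norm_num)]
  · show (volume : Measure I).real (st4 ⁻¹' {1}) = _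
    rw [k1, Measure.real, volume_Ico, ENNReal.toReal_ofReal (by norm_num)]; norm_num
  · show (volume : Measure I).real (st4 ⁻¹' {2}) = _
    rw [k2, Measure.real, volume_Ico, ENNReal.toReal_ofReal (by norm_num)]; norm_num
  · show (volume : Measure I).real (st4 ⁻¹' {3}) = _
    rw [k3, Measure.real, volume_Ici, ENNReal.toReal_ofReal (by norm_num)]; norm_num

open unitInterval in
/-- the step function with the table `A` -/
noncomputable def stepW (A : Fin 3 → Fin 4 → ℕ) (z : I × I) : ℝ := A (st3 z.1) (st4 z.2)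

theorem bdd_stepW (A : Fin 3 → Fin 4 → ℕ) : BddMeas (stepW A) := by
  constructor
  · exact (measurable_of_finite (fun p : Fin 3 × Fin 4 => (A p.1 p.2 : ℝ))).comp
      ((meas3.comp measurable_fst).prodMk (meas4.comp measurable_snd))
  · refine ⟨∑ p : Fin 3 × Fin 4, (A p.1 p.2 : ℝ), fun z => ?_⟩
    rw [stepW, Nat.abs_cast]
    exact single_le_sum (f := fun p : Fin 3 × Fin 4 => (A p.1 p.2 : ℝ))
      (fun _ _ => by positivity) (mem_univ (st3 z.1, st4 z.2))

theorem pow_stepW (A : Fin 3 → Fin 4 → ℕ) :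
    weakNorm fano volume volume (stepW A) ^ 42 = (1 / 3) ^ 7 * (1 / 4) ^ 14 * (cnt A : ℝ) := by
  have h1 : (fun z => |stepW A z|) = fun z => (fun i j => (A i j : ℝ)) (st3 z.1) (st4 z.2) := by
    funext z; rw [stepW, Nat.abs_cast]
  have h2 := homDensity_step fano volume volume st3 st4 meas3 meas4 _ _ vol3 vol4
    (fun i j => (A i j : ℝ))
  rw [weakNorm, h1, h2, card_fano, Fintype.card_fin, Fintype.card_fin, ← sum_eq_cnt]
  push_cast
  rw [one_div (42 : ℝ)]
  exact Real.rpow_inv_natCast_pow (n := 42) (by positivity) (by norm_num)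

theorem weakNorm_nonneg (A : Fin 3 → Fin 4 → ℕ) : 0 ≤ weakNorm fano volume volume (stepW A) := by
  apply Real.rpow_nonneg
  exact integral_nonneg (fun p => prod_nonneg (fun _ _ => abs_nonneg _))

open unitInterval in
theorem not_norming : ¬ WeaklyNormingOn fano (volume : Measure I) (volume : Measure I) := by
  rintro ⟨h, -, -⟩
  have h1 := h _ _ (bdd_stepW A1) (bdd_stepW A2)
  have h2 : stepW A1 + stepW A2 = stepW (fun i j => A1 i j + A2 i j) := by
    funext z; simp [stepW]
  rw [h2] at h1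
  have h3 := pow_le_pow_left₀ (weakNorm_nonneg _) h1 42
  have h4 := add_pow_le (weakNorm_nonneg A1) (weakNorm_nonneg A2) 42
  rw [pow_stepW] at h3
  rw [pow_stepW, pow_stepW] at h4
  have h5 : (2 : ℝ) ^ 41 * (cnt A1 + cnt A2) < cnt (fun i j => A1 i j + A2 i j) := by
    exact_mod_cast cnt_lt
  have h6 := h3.trans h4
  have h7 : (0 : ℝ) < (1 / 3) ^ 7 * (1 / 4) ^ 14 := by positivity
  have h8 := mul_lt_mul_of_pos_left h5 h7
  have h9 : (42 - 1 : ℕ) = 41 := rfl
  rw [h9] at h6
  linarith

end Pool.Agent.H169Z.WN
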