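import Pool.Agent.H169Z.WN.Defs

set_option autoImplicit false

namespace Pool.Agent.H169Z.WN

/-- the three points of the line `w` (each line of the Fano plane occurs twice) -/
def pts (w : Fin 14) : Fin 7 × Fin 7 × Fin 7 :=
  ![(0, 1, 3), (1, 2, 4), (2, 3, 5), (3, 4, 6), (4, 5, 0), (5, 6, 1), (6, 0, 2),
    (0, 1, 3), (1, 2, 4), (2, 3, 5), (3, 4, 6), (4, 5, 0), (5, 6, 1), (6, 0, 2)] w

/-- incidence -/
def inc (v : Fin 7) (w : Fin 14) : Bool :=
  v == (pts w).1 || v == (pts w).2.1 || v == (pts w).2.2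

/-- the incidence bigraph of the Fano plane with every line doubled -/
def fano : Finset (Fin 7 × Fin 14) := Finset.univ.filter fun e => inc e.1 e.2 = true

theorem mem_fano (v : Fin 7) (w : Fin 14) : (v, w) ∈ fano ↔ inc v w = true := by
  simp [fano]

theorem card_fano : fano.card = 42 := by decide +kernel

theorem adj_fano {v : Fin 7} {w : Fin 14} (h : inc v w = true) :
    (graph fano).Adj (Sum.inl v) (Sum.inr w) := by
  rw [graph, SimpleGraph.fromRel_adj]
  exact ⟨by simp, Or.inl ⟨(v, w), (mem_fano v w).2 h, rfl, rfl⟩⟩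

theorem connected_fano : (graph fano).Connected := by
  have h1 : ∀ v : Fin 7, (graph fano).Reachable (Sum.inl 0) (Sum.inl v) := by
    intro v
    have : ∀ v : Fin 7, ∃ w, inc 0 w = true ∧ inc v w = true := by decide +kernel
    obtain ⟨w, h1, h2⟩ := this v
    exact (adj_fano h1).reachable.trans (adj_fano h2).reachable.symm
  have h2 : ∀ a, (graph fano).Reachable (Sum.inl 0) a := by
    rintro (v | w)
    · exact h1 v
    · have : ∀ w : Fin 14, ∃ v, inc v w = true := by decide +kernel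
      obtain ⟨v, hv⟩ := this w
      exact (h1 v).trans (adj_fano hv).reachable
  exact SimpleGraph.Connected.mk (fun a b => (h2 a).symm.trans (h2 b))

/-- an involution given by two self-inverse tables -/
def mkInv (p : Fin 7 → Fin 7) (q : Fin 14 → Fin 14) (hp : ∀ v, p (p v) = v)
    (hq : ∀ w, q (q w) = w) : Equiv.Perm (Fin 7) × Equiv.Perm (Fin 14) :=
  (⟨p, p, hp, hp⟩, ⟨q, q, hq, hq⟩)

theorem cut_mkInv (p : Fin 7 → Fin 7) (q : Fin 14 → Fin 14) (hp : ∀ v, p (p v) = v)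
    (hq : ∀ w, q (q w) = w) (h1 : ∀ v w, inc (p v) (q w) = inc v w) (w : Fin 14)
    (h2 : q w ≠ w) (h3 : ∀ v, inc v w = true → p v = v) :
    IsCutInvolution fano (mkInv p q hp hq) := by
  refine ⟨fun v w => ?_, rfl, fun h => ?_⟩
  · rw [mem_fano, mem_fano, ← h1 v w]; rfl
  · have m1 : Sum.inr w ∈ {a : Fin 7 ⊕ Fin 14 |
        Sum.map (mkInv p q hp hq).1 (mkInv p q hp hq).2 a ≠ a} := by
      intro hh
      exact h2 (Sum.inr.inj hh)
    have m2 : Sum.inr (q w) ∈ {a : Fin 7 ⊕ Fin 14 |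
        Sum.map (mkInv p q hp hq).1 (mkInv p q hp hq).2 a ≠ a} := by
      intro hh
      have : q (q w) = q w := Sum.inr.inj hh
      rw [hq] at this
      exact h2 this.symm
    obtain ⟨W⟩ := h ⟨_, m1⟩ ⟨_, m2⟩
    have key : ∀ b, ¬ ((graph fano).induce {a : Fin 7 ⊕ Fin 14 |
        Sum.map (mkInv p q hp hq).1 (mkInv p q hp hq).2 a ≠ a}).Adj ⟨_, m1⟩ b := by
      rintro ⟨b, hb⟩ hadj
      have hadj' : (graph fano).Adj (Sum.inr w) b := hadj
      rw [graph, SimpleGraph.fromRel_adj] at hadj'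
      rcases hadj'.2 with ⟨e, _, h4, _⟩ | ⟨e, he, h4, h5⟩
      · exact absurd h4 (by simp)
      · have h6 : w = e.2 := Sum.inr.inj h5
        subst h4
        apply hb
        have h7 : inc e.1 w = true := by rw [h6]; exact (mem_fano _ _).1 he
        show Sum.inl (p e.1) = Sum.inl e.1
        rw [h3 _ h7]
    have hne : (⟨_, m1⟩ : {a : Fin 7 ⊕ Fin 14 |
        Sum.map (mkInv p q hp hq).1 (mkInv p q hp hq).2 a ≠ a}) ≠ ⟨_, m2⟩ := by
      intro hh
      exact h2 (Sum.inr.inj (congrArg Subtype.val hh)).symm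
    obtain ⟨b, hb, -, -⟩ := W.exists_eq_cons_of_ne hne
    exact key b hb

def p1 : Fin 7 → Fin 7 := ![0, 1, 4, 3, 2, 6, 5]
def q1 : Fin 14 → Fin 14 := ![7, 8, 10, 9, 13, 12, 11, 0, 1, 3, 2, 6, 5, 4]
def p2 : Fin 7 → Fin 7 := ![0, 3, 2, 1, 5, 4, 6]
def q2 : Fin 14 → Fin 14 := ![7, 9, 8, 12, 11, 10, 13, 0, 2, 1, 5, 4, 3, 6]
def p3 : Fin 7 → Fin 7 := ![2, 1, 0, 4, 3, 5, 6]
def q3 : Fin 14 → Fin 14 := ![8, 7, 11, 10, 9, 12, 13, 1, 0, 4, 3, 2, 5, 6]

def g1 := mkInv p1 q1 (by decide +kernel) (by decide +kernel)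
def g2 := mkInv p2 q2 (by decide +kernel) (by decide +kernel)
def g3 := mkInv p3 q3 (by decide +kernel) (by decide +kernel)

theorem cut1 : IsCutInvolution fano g1 :=
  cut_mkInv _ _ _ _ (by decide +kernel) 0 (by decide +kernel) (by decide +kernel)
theorem cut2 : IsCutInvolution fano g2 :=
  cut_mkInv _ _ _ _ (by decide +kernel) 6 (by decide +kernel) (by decide +kernel)
theorem cut3 : IsCutInvolution fano g3 :=
  cut_mkInv _ _ _ _ (by decide +kernel) 5 (by decide +kernel) (by decide +kernel)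

/-- edges reached from the base edge by at most `n` generators -/
def reach : ℕ → List (Fin 7 × Fin 14)
  | 0 => [(0, 0)]
  | n + 1 => ((reach n) ++ (reach n).map (fun e => (p1 e.1, q1 e.2)) ++
      (reach n).map (fun e => (p2 e.1, q2 e.2)) ++ (reach n).map (fun e => (p3 e.1, q3 e.2))).dedup

theorem reach_mem (n : ℕ) : ∀ e ∈ reach n, ∃ φ ∈ cutGroup fano, (φ.1 0, φ.2 0) = e := by
  induction n with
  | zero =>
    intro e he
    exact ⟨1, one_mem _, (List.mem_singleton.1 he).symm⟩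
  | succ n ih =>
    intro e he
    simp only [reach, List.mem_dedup, List.mem_append, List.mem_map] at he
    rcases he with ((he | ⟨a, ha, rfl⟩) | ⟨a, ha, rfl⟩) | ⟨a, ha, rfl⟩
    · exact ih e he
    · obtain ⟨φ, h1, rfl⟩ := ih a ha
      exact ⟨g1 * φ, mul_mem (Subgroup.subset_closure cut1) h1, rfl⟩
    · obtain ⟨φ, h1, rfl⟩ := ih a ha
      exact ⟨g2 * φ, mul_mem (Subgroup.subset_closure cut2) h1, rfl⟩
    · obtain ⟨φ, h1, rfl⟩ := ih a ha
      exact ⟨g3 * φ, mul_mem (Subgroup.subset_closure cut3) h1, rfl⟩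

theorem transitive_fano : EdgeTransitive fano (cutGroup fano) := by
  have h : ∀ v w, inc v w = true → (v, w) ∈ reach 6 := by decide +kernel
  rintro ⟨v, w⟩ he ⟨v', w'⟩ he'
  obtain ⟨φ, h1, h2⟩ := reach_mem 6 _ (h v w ((mem_fano _ _).1 he))
  obtain ⟨ψ, h3, h4⟩ := reach_mem 6 _ (h v' w' ((mem_fano _ _).1 he'))
  refine ⟨ψ * φ⁻¹, mul_mem h3 (inv_mem h1), ?_⟩
  obtain ⟨rfl, rfl⟩ := Prod.mk.inj h2
  rw [← h4]
  simp

end Pool.Agent.H169Z.WN
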